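import Pool.Agent.Lib_helper15.C10.Defs3

set_option autoImplicit false

universe u

namespace Pool.Agent.C10

open Filter Set
open scoped Topology

namespace H3

variable {H : Type*} [NormedAddCommGroup H] [InnerProductSpace ℂ H]

lemma PP_cons (c : ℝ) (n : ℕ) (l : List ℕ) :
    (PP c (n :: l)).1 = (PP c l).1 + Polynomial.X ^ (n - dP l) * QQ c l := rfl

/-- functionals of a costable operator -/
lemma costable_apply {T : H →L[ℂ] H} (hT : CoStable T) (φ : H →L[ℂ] ℂ) (y : H) :
    Tendsto (fun n : ℕ => φ ((T ^ n) y)) atTop (𝓝 0) := by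
  have h1 := hT φ
  rw [tendsto_zero_iff_norm_tendsto_zero] at h1 ⊢
  have h2 : Tendsto (fun n : ℕ => ‖φ.comp (T ^ n)‖ * ‖y‖) atTop (𝓝 0) := by
    simpa using h1.mul_const ‖y‖
  exact squeeze_zero (fun _ => norm_nonneg _)
    (fun n => (φ.comp (T ^ n)).le_opNorm y) h2

lemma B_pow {T : H →L[ℂ] H} {B : H →L⋆[ℂ] H →L[ℂ] ℂ} (hB : ∀ x y, B (T x) (T y) = B x y)
    (n : ℕ) (x y : H) : B ((T ^ n) x) ((T ^ n) y) = B x y := by
  induction n with
  | zero => simp
  | succ n ih =>
    rw [pow_succ']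
    change B (T ((T ^ n) x)) (T ((T ^ n) y)) = B x y
    rw [hB, ih]

end H3

open H3 in
theorem modH3 : ModH3 := by
  intro H _ _ T M B hAs hT c x₀ l ε hε
  obtain ⟨hherm, hpos, hinv, hasy, -⟩ := hAs
  set v : H := Polynomial.aeval T (PP c l).1 x₀ with hv
  set q : H := Polynomial.aeval T (QQ c l) x₀ with hq
  have hstep : ∀ n : ℕ, Polynomial.aeval T (PP c (n :: l)).1 x₀ = v + (T ^ (n - dP l)) q := by
    intro n
    rw [PP_cons, map_add, map_mul, map_pow, Polynomial.aeval_X]
    rfl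
  have hm : Tendsto (fun n : ℕ => n - dP l) atTop atTop := tendsto_sub_atTop_nat _
  have h1 : Tendsto (fun n : ℕ => (innerSL ℂ v) ((T ^ (n - dP l)) q)) atTop (𝓝 0) :=
    (costable_apply hT (innerSL ℂ v) q).comp hm
  have h2 : Tendsto (fun n : ℕ => (B v) ((T ^ (n - dP l)) q)) atTop (𝓝 0) :=
    (costable_apply hT (B v) q).comp hm
  have h1' : Tendsto (fun n : ℕ => 2 * ((innerSL ℂ v) ((T ^ (n - dP l)) q)).re -
      2 * M ^ 2 * ((B v) ((T ^ (n - dP l)) q)).re) atTop (𝓝 0) := by
    have a1 := (Complex.continuous_re.tendsto 0).comp h1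
    have a2 := (Complex.continuous_re.tendsto 0).comp h2
    have a3 := (a1.const_mul 2).sub (a2.const_mul (2 * M ^ 2))
    simpa using a3
  have h3 := hm.eventually (hasy q (ε / 2) (half_pos hε))
  have h4 := h1'.eventually (gt_mem_nhds (half_pos hε))
  filter_upwards [h3, h4] with n hn3 hn4
  have e : pot T M B c x₀ (n :: l) = pot T M B c x₀ l +
      (2 * ((innerSL ℂ v) ((T ^ (n - dP l)) q)).re -
        2 * M ^ 2 * ((B v) ((T ^ (n - dP l)) q)).re) +
      (‖(T ^ (n - dP l)) q‖ ^ 2 - M ^ 2 * (B q q).re) := by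
    set y : H := (T ^ (n - dP l)) q with hy
    have hBy : B y y = B q q := B_pow hinv _ _ _
    have hBvy : (B y v).re = (B v y).re := by
      rw [hherm v y, Complex.conj_re]
    have hns : ‖v + y‖ ^ 2 = ‖v‖ ^ 2 + 2 * ((innerSL ℂ v) y).re + ‖y‖ ^ 2 := by
      have := @norm_add_sq ℂ H _ _ _ v y
      simpa using this
    have hBs : (B (v + y) (v + y)).re = (B v v).re + 2 * (B v y).re + (B q q).re := by
      rw [show B (v + y) = B v + B y from map_add B v y]
      change ((B v) (v + y) + (B y) (v + y)).re = _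
      rw [map_add, map_add, hBy]
      simp only [Complex.add_re]
      rw [hBvy]
      ring
    unfold pot
    rw [hstep n, ← hy, ← hv, hns, hBs]
    ring
  rw [e]
  linarith

end Pool.Agent.C10
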