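import Pool.Agent.Lib_helper15.C10.Defs

set_option autoImplicit false

universe u

namespace Pool.Agent.C10

open Filter Set
open scoped Topology

namespace C3

lemma norm_zc_pow_mul (n : ℕ) (h : C(Circle, ℂ)) : ‖zc ^ n * h‖ ≤ ‖h‖ := by
  rw [ContinuousMap.norm_le _ (norm_nonneg h)]
  intro z
  have : (zc ^ n * h) z = (z : ℂ) ^ n * h z := rfl
  rw [this, norm_mul, norm_pow, Circle.norm_coe, one_pow, one_mul]
  exact ContinuousMap.norm_coe_le_norm h z

lemma ex_hasSum (f : C(Circle, ℂ)) :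
    HasSum (fun n : ℕ => ((n.factorial : ℂ)⁻¹) • f ^ n) (ex f) := by
  have h := NormedSpace.exp_series_hasSum_exp' (𝕂 := ℂ) f
  have e : NormedSpace.exp f = ex f := by
    ext z
    have h1 : NormedSpace.exp f z = NormedSpace.exp (f z) := by
      have := h.mapL (ContinuousMap.evalCLM ℂ z)
      have h2 := NormedSpace.exp_series_hasSum_exp' (𝕂 := ℂ) (f z)
      exact this.unique h2
    rw [h1, ← Complex.exp_eq_exp_ℂ]
    rfl
  rwa [e] at h

/-- complete target -/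
lemma aux {G : Type*} [NormedAddCommGroup G] [NormedSpace ℂ G] [CompleteSpace G]
    (Ψ : C(Circle, ℂ) →L[ℂ] G)
    (hΨ : ∀ f, Tendsto (fun n : ℕ => Ψ (zc ^ n * f)) atTop (𝓝 0)) (a h : C(Circle, ℂ)) (s : ℝ) :
    Tendsto (fun n : ℕ => Ψ (a * (ex ((s : ℂ) • (zc ^ n * h)) - 1))) atTop (𝓝 0) := by
  set B : ℝ := |s| * ‖h‖ with hB
  have hB0 : 0 ≤ B := by positivity
  have hf : ∀ n : ℕ, ‖(s : ℂ) • (zc ^ n * h)‖ ≤ B := by
    intro n
    rw [norm_smul, Complex.norm_real, Real.norm_eq_abs]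
    exact mul_le_mul_of_nonneg_left (norm_zc_pow_mul n h) (abs_nonneg s)
  have hsum : ∀ n : ℕ, HasSum
      (fun j : ℕ => Ψ (a * (((j.factorial : ℂ)⁻¹) • ((s : ℂ) • (zc ^ n * h)) ^ j)))
      (Ψ (a * ex ((s : ℂ) • (zc ^ n * h)))) := by
    intro n
    exact ((ex_hasSum _).mul_left a).mapL Ψ
  have hbs : Summable (fun j : ℕ => ‖Ψ‖ * ‖a‖ * (B ^ j / (j.factorial : ℝ))) :=
    (Real.summable_pow_div_factorial B).mul_left _
  have hbound : ∀ n j : ℕ,
      ‖Ψ (a * (((j.factorial : ℂ)⁻¹) • ((s : ℂ) • (zc ^ n * h)) ^ j))‖ ≤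
        ‖Ψ‖ * ‖a‖ * (B ^ j / (j.factorial : ℝ)) := by
    intro n j
    refine (Ψ.le_opNorm _).trans ?_
    rw [mul_assoc]
    refine mul_le_mul_of_nonneg_left ?_ (norm_nonneg _)
    refine (norm_mul_le _ _).trans ?_
    refine mul_le_mul_of_nonneg_left ?_ (norm_nonneg _)
    rw [norm_smul, norm_inv, Complex.norm_natCast, div_eq_inv_mul]
    refine mul_le_mul_of_nonneg_left ?_ (by positivity)
    exact (norm_pow_le _ _).trans (pow_le_pow_left₀ (norm_nonneg _) (hf n) j)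
  have hterm : ∀ j : ℕ, Tendsto
      (fun n : ℕ => Ψ (a * (((j.factorial : ℂ)⁻¹) • ((s : ℂ) • (zc ^ n * h)) ^ j))) atTop
      (𝓝 (if j = 0 then Ψ a else 0)) := by
    intro j
    rcases Nat.eq_zero_or_pos j with rfl | hj
    · simp
    · rw [if_neg hj.ne']
      have e : ∀ n : ℕ, Ψ (a * (((j.factorial : ℂ)⁻¹) • ((s : ℂ) • (zc ^ n * h)) ^ j)) =
          (((j.factorial : ℂ)⁻¹) * (s : ℂ) ^ j) • Ψ (zc ^ (j * n) * (a * h ^ j)) := by
        intro n
        rw [← map_smul]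
        congr 1
        rw [smul_pow, mul_pow, ← pow_mul, mul_comm n j, smul_smul, mul_smul_comm]
        congr 1
        ring
      simp only [e]
      have h1 : Tendsto (fun n : ℕ => j * n) atTop atTop := tendsto_id.const_mul_atTop' hj
      have h2 := ((hΨ (a * h ^ j)).comp h1).const_smul (((j.factorial : ℂ)⁻¹) * (s : ℂ) ^ j)
      rw [smul_zero] at h2
      exact h2
  have hlim := tendsto_tsum_of_dominated_convergence hbs hterm
    (Eventually.of_forall fun n => hbound n)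
  have e1 : (fun n : ℕ => ∑' j : ℕ, Ψ (a * (((j.factorial : ℂ)⁻¹) •
      ((s : ℂ) • (zc ^ n * h)) ^ j))) = fun n => Ψ (a * ex ((s : ℂ) • (zc ^ n * h))) :=
    funext fun n => (hsum n).tsum_eq
  rw [e1, tsum_ite_eq] at hlim
  have h3 := hlim.sub_const (Ψ a)
  rw [sub_self] at h3
  refine h3.congr fun n => ?_
  rw [mul_sub, mul_one, map_sub]

end C3

open C3 in
theorem modC3 : ModC3 := by
  intro F _ _ Φ hΦ a h s
  let Ψ : C(Circle, ℂ) →L[ℂ] UniformSpace.Completion F :=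
    (UniformSpace.Completion.toComplL (𝕜 := ℂ) (E := F)).comp Φ
  have hn : ∀ f, ‖Ψ f‖ = ‖Φ f‖ := fun f => UniformSpace.Completion.norm_coe _
  have h1 := aux Ψ (fun f => by
    rw [tendsto_zero_iff_norm_tendsto_zero]
    simp only [hn]
    exact (tendsto_zero_iff_norm_tendsto_zero).1 (hΦ f)) a h s
  rw [tendsto_zero_iff_norm_tendsto_zero] at h1 ⊢
  simpa only [hn] using h1

end Pool.Agent.C10
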