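import Pool.Agent.Lib_helper15.C10.Defs3
import Pool.Agent.Lib_helper65.C10.C3

set_option autoImplicit false

universe u

namespace Pool.Agent.C10

open Filter Set
open scoped Topology

namespace P2

open C3

lemma norm_neg_zc_pow_mul (n : ℕ) (w : C(Circle, ℂ)) (hw : ‖w‖ ≤ 1 / 2) :
    ‖-(zc ^ n * w)‖ ≤ 1 / 2 := by
  rw [norm_neg]
  exact (norm_zc_pow_mul n w).trans hw

lemma norm_lt (n : ℕ) (w : C(Circle, ℂ)) (hw : ‖w‖ ≤ 1 / 2) : ‖-(zc ^ n * w)‖ < 1 :=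
  (norm_neg_zc_pow_mul n w hw).trans_lt (by norm_num)

lemma unit (n : ℕ) (w : C(Circle, ℂ)) (hw : ‖w‖ ≤ 1 / 2) : IsUnit (1 + zc ^ n * w) := by
  have h := (Units.oneSub (-(zc ^ n * w)) (norm_lt n w hw)).isUnit
  rwa [Units.val_oneSub, sub_neg_eq_add] at h

lemma hasSum_inv (n : ℕ) (w : C(Circle, ℂ)) (hw : ‖w‖ ≤ 1 / 2) :
    HasSum (fun j : ℕ => (-(zc ^ n * w)) ^ j) (Ring.inverse (1 + zc ^ n * w)) := by
  have h := hasSum_geom_series_inverse (-(zc ^ n * w)) (norm_lt n w hw)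
  rwa [sub_neg_eq_add] at h

/-- complete target -/
lemma aux {G : Type*} [NormedAddCommGroup G] [NormedSpace ℂ G] [CompleteSpace G]
    (Ψ : C(Circle, ℂ) →L[ℂ] G)
    (hΨ : ∀ f, Tendsto (fun n : ℕ => Ψ (zc ^ n * f)) atTop (𝓝 0)) (a w : C(Circle, ℂ))
    (hw : ‖w‖ ≤ 1 / 2) :
    Tendsto (fun n : ℕ => Ψ (a * (Ring.inverse (1 + zc ^ n * w) - 1))) atTop (𝓝 0) := by
  have hsum : ∀ n : ℕ, HasSum (fun j : ℕ => Ψ (a * (-(zc ^ n * w)) ^ j))
      (Ψ (a * Ring.inverse (1 + zc ^ n * w))) := by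
    intro n
    exact ((hasSum_inv n w hw).mul_left a).mapL Ψ
  have hbs : Summable (fun j : ℕ => ‖Ψ‖ * ‖a‖ * (1 / 2 : ℝ) ^ j) :=
    (summable_geometric_of_lt_one (by norm_num) (by norm_num)).mul_left _
  have hbound : ∀ n j : ℕ,
      ‖Ψ (a * (-(zc ^ n * w)) ^ j)‖ ≤ ‖Ψ‖ * ‖a‖ * (1 / 2 : ℝ) ^ j := by
    intro n j
    refine (Ψ.le_opNorm _).trans ?_
    rw [mul_assoc]
    refine mul_le_mul_of_nonneg_left ?_ (norm_nonneg _)
    refine (norm_mul_le _ _).trans ?_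
    refine mul_le_mul_of_nonneg_left ?_ (norm_nonneg _)
    exact (norm_pow_le _ _).trans
      (pow_le_pow_left₀ (norm_nonneg _) (norm_neg_zc_pow_mul n w hw) j)
  have hterm : ∀ j : ℕ, Tendsto
      (fun n : ℕ => Ψ (a * (-(zc ^ n * w)) ^ j)) atTop
      (𝓝 (if j = 0 then Ψ a else 0)) := by
    intro j
    rcases Nat.eq_zero_or_pos j with rfl | hj
    · simp
    · rw [if_neg hj.ne']
      have e : ∀ n : ℕ, Ψ (a * (-(zc ^ n * w)) ^ j) = Ψ (zc ^ (j * n) * (a * (-w) ^ j)) := by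
        intro n
        congr 1
        rw [← mul_neg, mul_pow, ← pow_mul, mul_comm n j]
        ring
      simp only [e]
      have h1 : Tendsto (fun n : ℕ => j * n) atTop atTop := tendsto_id.const_mul_atTop' hj
      exact (hΨ (a * (-w) ^ j)).comp h1
  have hlim := tendsto_tsum_of_dominated_convergence hbs hterm
    (Eventually.of_forall fun n => hbound n)
  have e1 : (fun n : ℕ => ∑' j : ℕ, Ψ (a * (-(zc ^ n * w)) ^ j)) =
      fun n => Ψ (a * Ring.inverse (1 + zc ^ n * w)) :=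
    funext fun n => (hsum n).tsum_eq
  rw [e1, tsum_ite_eq] at hlim
  have h3 := hlim.sub_const (Ψ a)
  rw [sub_self] at h3
  refine h3.congr fun n => ?_
  rw [mul_sub, mul_one, map_sub]

end P2

open P2 in
theorem modP2 : ModP2 := by
  intro F _ _ Φ hΦ a w hw
  refine ⟨fun n => unit n w hw, ?_⟩
  let Ψ : C(Circle, ℂ) →L[ℂ] UniformSpace.Completion F :=
    (UniformSpace.Completion.toComplL (𝕜 := ℂ) (E := F)).comp Φ
  have hn : ∀ f, ‖Ψ f‖ = ‖Φ f‖ := fun f => UniformSpace.Completion.norm_coe _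
  have h1 := aux Ψ (fun f => by
    rw [tendsto_zero_iff_norm_tendsto_zero]
    simp only [hn]
    exact (tendsto_zero_iff_norm_tendsto_zero).1 (hΦ f)) a w hw
  rw [tendsto_zero_iff_norm_tendsto_zero] at h1 ⊢
  simpa only [hn] using h1

end Pool.Agent.C10
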