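import Pool.Agent.Lib_helper15.C10.Defs

set_option autoImplicit false

namespace Pool.Agent.C10

open Filter Set
open scoped Topology

namespace C4

lemma sqrt_bound {a c : ℝ} (ha : 0 ≤ a) (hc1 : -1 ≤ c) (hc2 : c ≤ 1) :
    √(a * (1 + c)) ≤ √a * (1 + c / 2 - c ^ 2 / 12) := by
  have h0 : 0 ≤ 1 + c / 2 - c ^ 2 / 12 := by nlinarith
  rw [Real.sqrt_mul ha]
  apply mul_le_mul_of_nonneg_left _ (Real.sqrt_nonneg a)
  apply Real.sqrt_le_iff.2
  refine ⟨h0, ?_⟩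
  have h1 : 0 ≤ c ^ 2 * (1 / 12 - c / 12 + c ^ 2 / 144) :=
    mul_nonneg (sq_nonneg c) (by nlinarith [sq_nonneg c])
  nlinarith

lemma abs_re_pow (z : Circle) (n : ℕ) : |((z : ℂ) ^ n).re| ≤ 1 := by
  have h := Complex.abs_re_le_norm ((z : ℂ) ^ n)
  rwa [norm_pow, Circle.norm_coe, one_pow] at h

lemma re_pow_sq (z : Circle) (n : ℕ) :
    (((z : ℂ) ^ n).re) ^ 2 = (1 + ((z : ℂ) ^ (2 * n)).re) / 2 := by
  have h1 : ((z : ℂ) ^ (2 * n)).re = (((z : ℂ) ^ n).re) ^ 2 - (((z : ℂ) ^ n).im) ^ 2 := by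
    rw [mul_comm, pow_mul, pow_two, Complex.mul_re]; ring
  have h2 : (((z : ℂ) ^ n).re) ^ 2 + (((z : ℂ) ^ n).im) ^ 2 = 1 := by
    have h := Complex.sq_norm ((z : ℂ) ^ n)
    rw [norm_pow, Circle.norm_coe, one_pow, Complex.normSq_apply] at h
    nlinarith
  nlinarith

lemma riesz_apply (z : Circle) (n : ℕ) :
    ((1 + (1 / 2 : ℂ) • (zc ^ n + star (zc ^ n)) : C(Circle, ℂ)) z) =
      ((1 + ((z : ℂ) ^ n).re : ℝ) : ℂ) := by
  have h : ((1 + (1 / 2 : ℂ) • (zc ^ n + star (zc ^ n)) : C(Circle, ℂ)) z) =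
      1 + (1 / 2 : ℂ) * ((z : ℂ) ^ n + (starRingEnd ℂ) ((z : ℂ) ^ n)) := by
    simp [zc]
    ring
  rw [h, Complex.add_conj]
  push_cast
  ring

end C4

open C4 in
theorem modC4 : ModC4 := by
  intro L hL h hh ε hε
  have hmono : ∀ f g : C(Circle, ℝ), f ≤ g → L f ≤ L g := by
    intro f g hfg
    have := hL.1 (g - f) (sub_nonneg.2 hfg)
    rw [map_sub] at this
    linarith
  have h1 := (hL.2 (sq h)).eventually (gt_mem_nhds hε)
  have h2 : Tendsto (fun n : ℕ => L (cosn (2 * n) * sq h)) atTop (𝓝 0) :=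
    (hL.2 (sq h)).comp (tendsto_id.const_mul_atTop' (by norm_num))
  have h3 := h2.eventually (lt_mem_nhds (neg_lt_zero.2 hε))
  filter_upwards [h1, h3] with n hn1 hn3
  have key : sq (h * (1 + (1 / 2 : ℂ) • (zc ^ n + star (zc ^ n)))) ≤
      (23 / 24 : ℝ) • sq h + (1 / 2 : ℝ) • (cosn n * sq h) -
        (1 / 24 : ℝ) • (cosn (2 * n) * sq h) := by
    intro z
    have e1 : (sq (h * (1 + (1 / 2 : ℂ) • (zc ^ n + star (zc ^ n))))) z =
        √((h z).re * (1 + ((z : ℂ) ^ n).re)) := by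
      change √((h * (1 + (1 / 2 : ℂ) • (zc ^ n + star (zc ^ n)))) z).re = _
      rw [ContinuousMap.mul_apply, riesz_apply, Complex.re_mul_ofReal]
    have e2 : ((23 / 24 : ℝ) • sq h + (1 / 2 : ℝ) • (cosn n * sq h) -
        (1 / 24 : ℝ) • (cosn (2 * n) * sq h)) z =
        (23 / 24) * √(h z).re + (1 / 2) * (((z : ℂ) ^ n).re * √(h z).re) -
          (1 / 24) * (((z : ℂ) ^ (2 * n)).re * √(h z).re) := rfl
    change (sq (h * (1 + (1 / 2 : ℂ) • (zc ^ n + star (zc ^ n))))) z ≤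
      ((23 / 24 : ℝ) • sq h + (1 / 2 : ℝ) • (cosn n * sq h) -
        (1 / 24 : ℝ) • (cosn (2 * n) * sq h)) z
    rw [e1, e2]
    have hb := abs_le.1 (abs_re_pow z n)
    refine (sqrt_bound (hh z).2 hb.1 hb.2).trans (le_of_eq ?_)
    rw [re_pow_sq]
    ring
  have := hmono _ _ key
  rw [map_sub, map_add, map_smul, map_smul, map_smul, smul_eq_mul, smul_eq_mul, smul_eq_mul] at this
  linarith

end Pool.Agent.C10
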